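import Pool.Agent.H65.CRZ.TN
import Pool.Agent.H33.CV.AF2
import Pool.Agent.H37.CV.All
import Pool.Agent.H28.PZ.All

/-!
# (AF) The approximate functional equation with shifts
-/

set_option autoImplicit false

open NumberField NumberField.InfinitePlace Complex Filter Topology MeasureTheory

namespace Pool.Agent.H47.CRZ

open Pool.Agent.H28.RC Pool.Agent.H25.HK Pool.Agent.H37.CV Pool.Agent.H65.CRZ

section
variable {K : Type} [Field K] [NumberField K]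

/-- the product of the two completed functions -/
noncomputable def HG (Λ : ℂ → ℂ) (s₁ s₂ w : ℂ) : ℂ :=
  Λ (s₁ + w) * (starRingEnd ℂ) (Λ ((starRingEnd ℂ) (s₂ + w)))

theorem HG_diff {Λ : ℂ → ℂ} (h : Differentiable ℂ Λ) (s₁ s₂ : ℂ) :
    Differentiable ℂ (HG Λ s₁ s₂) := by
  intro s
  unfold HG
  refine (h.comp (differentiable_const _ |>.add differentiable_id) s).mul ?_
  have h1 : DifferentiableAt ℂ (fun w : ℂ => Λ ((starRingEnd ℂ) s₂ + w)) ((starRingEnd ℂ) s) :=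
    h.comp (differentiable_const _ |>.add differentiable_id) _
  have h2 := h1.conj_conj
  rw [Complex.conj_conj] at h2
  have e : (fun w : ℂ => (starRingEnd ℂ) (Λ ((starRingEnd ℂ) (s₂ + w)))) =
      (starRingEnd ℂ) ∘ (fun w : ℂ => Λ ((starRingEnd ℂ) s₂ + w)) ∘ (starRingEnd ℂ) := by
    funext w
    simp only [Function.comp, map_add]
  rw [e]
  exact h2

theorem HG_neg {Λ : ℂ → ℂ} {ε : ℂ} (hε : ‖ε‖ = 1)
    (h : ∀ s : ℂ, Λ s = ε * (starRingEnd ℂ) (Λ (1 - (starRingEnd ℂ) s))) (s₁ s₂ w : ℂ) :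
    HG Λ s₁ s₂ (-w) = HG Λ (1 - s₂) (1 - s₁) w := by
  unfold HG
  have h1 := h (s₁ + -w)
  have h2 := h ((starRingEnd ℂ) (s₂ + -w))
  have e1 : 1 - (starRingEnd ℂ) (s₁ + -w) = (starRingEnd ℂ) (1 - s₁ + w) := by
    simp only [map_add, map_one, map_neg, map_sub]
    ring
  have e2 : 1 - (starRingEnd ℂ) ((starRingEnd ℂ) (s₂ + -w)) = 1 - s₂ + w := by
    rw [Complex.conj_conj]
    ring
  rw [e1] at h1
  rw [e2] at h2
  rw [h1, h2, map_mul, Complex.conj_conj]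
  have h3 : ε * (starRingEnd ℂ) ε = 1 := by
    rw [Complex.mul_conj, Complex.normSq_eq_norm_sq, hε]
    simp
  calc ε * (starRingEnd ℂ) (Λ ((starRingEnd ℂ) (1 - s₁ + w))) *
        ((starRingEnd ℂ) ε * Λ (1 - s₂ + w))
      = (ε * (starRingEnd ℂ) ε) * (Λ (1 - s₂ + w) *
        (starRingEnd ℂ) (Λ ((starRingEnd ℂ) (1 - s₁ + w)))) := by ring
    _ = _ := by rw [h3, one_mul]

/-- the factor of the completed function -/
theorem fac {Q : ℝ} (hQ : 0 < Q) (s : ℂ) :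
    (Q : ℂ) ^ (s / 2) * Gammaℂ s = 2 * (((Real.sqrt Q / (2 * Real.pi) : ℝ) : ℂ) ^ s * Gamma s) := by
  have hs : 0 < Real.sqrt Q := Real.sqrt_pos.2 hQ
  have e1 : (Q : ℂ) ^ (s / 2) = ((Real.sqrt Q : ℝ) : ℂ) ^ s := by
    have hq : (Q : ℂ) = ((Real.sqrt Q : ℝ) : ℂ) ^ (2 : ℂ) := by
      rw [show (2 : ℂ) = ((2 : ℕ) : ℂ) by norm_num, Complex.cpow_natCast]
      exact_mod_cast (Real.sq_sqrt hQ.le).symm
    have hl : Complex.log (((Real.sqrt Q : ℝ) : ℂ) ^ (2 : ℂ)) =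
        2 * Complex.log ((Real.sqrt Q : ℝ) : ℂ) := by
      rw [← hq, ← Complex.ofReal_log hQ.le, ← Complex.ofReal_log hs.le, Real.log_sqrt hQ.le]
      push_cast
      ring
    rw [hq, Complex.cpow_def_of_ne_zero (by rw [← hq]; exact_mod_cast hQ.ne'), hl,
      Complex.cpow_def_of_ne_zero (by exact_mod_cast hs.ne')]
    congr 1
    ring
  have h2 : (2 * (Real.pi : ℂ)) = ((2 * Real.pi : ℝ) : ℂ) := by push_cast; rfl
  have hp : (0 : ℝ) < 2 * Real.pi := by positivity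
  have e2 : ((Real.sqrt Q / (2 * Real.pi) : ℝ) : ℂ) ^ s =
      ((Real.sqrt Q : ℝ) : ℂ) ^ s * ((2 * Real.pi : ℝ) : ℂ) ^ (-s) := by
    rw [div_eq_mul_inv, Complex.ofReal_mul, Complex.mul_cpow_ofReal_nonneg hs.le
      (inv_nonneg.2 hp.le), Complex.ofReal_inv, Complex.inv_cpow _ _ (by
        rw [Complex.arg_ofReal_of_nonneg hp.le]; exact Real.pi_pos.ne), ← Complex.cpow_neg]
  rw [e1, e2, Gammaℂ_def, h2]
  ring

theorem HG_eq {Λ Z : ℂ → ℂ} {Q : ℝ} (hQ : 0 < Q)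
    (h : ∀ s : ℂ, (∀ n : ℕ, s ≠ -(n : ℂ)) → Λ s = (Q : ℂ) ^ (s / 2) * Gammaℂ s ^ 1 * Z s)
    (s₁ s₂ w : ℂ) (h1 : 0 < (s₁ + w).re) (h2 : 0 < (s₂ + w).re) :
    HG Λ s₁ s₂ w = 4 * ((Real.sqrt Q / (2 * Real.pi) : ℝ) : ℂ) ^ (s₁ + w + (s₂ + w)) *
      (Gamma (s₁ + w) * Gamma (s₂ + w)) *
      (Z (s₁ + w) * (starRingEnd ℂ) (Z ((starRingEnd ℂ) (s₂ + w)))) := by
  have hn : ∀ u : ℂ, 0 < u.re → ∀ n : ℕ, u ≠ -(n : ℂ) := by
    intro u hu n hh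
    have := congrArg Complex.re hh
    simp only [Complex.neg_re, Complex.natCast_re] at this
    have h2 : (0 : ℝ) ≤ n := Nat.cast_nonneg n
    linarith
  have hA : 0 < Real.sqrt Q / (2 * Real.pi) := div_pos (Real.sqrt_pos.2 hQ) (by positivity)
  unfold HG
  rw [h _ (hn _ h1), h _ (hn _ (by rw [Complex.conj_re]; exact h2)), pow_one, pow_one, fac hQ,
    fac hQ, map_mul, map_mul, map_mul, Complex.Gamma_conj, Complex.conj_conj,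
    Pool.Agent.H33.CV.cpow_conj_real hA.le, Complex.conj_ofNat,
    Complex.cpow_add (s₁ + w) (s₂ + w) (by exact_mod_cast hA.ne')]
  ring

/-- the summands of the product -/
noncomputable def pq (χ : RCC K) (s₁ s₂ : ℂ) (p : NI K × NI K) : ℂ :=
  (χ.ψ p.1.1 * (Ideal.absNorm p.1.1 : ℂ) ^ (-s₁)) *
    ((starRingEnd ℂ) (χ.ψ p.2.1) * (Ideal.absNorm p.2.1 : ℂ) ^ (-s₂))

theorem Lc_prod2 (χ : RCC K) {s₁ s₂ : ℂ} (hs : 1 < s₁.re) (hs2 : 1 < s₂.re) :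
    Lc χ s₁ * (starRingEnd ℂ) (Lc χ ((starRingEnd ℂ) s₂)) = ∑' p : NI K × NI K, pq χ s₁ s₂ p := by
  have h1 : Summable fun I : NI K => ‖χ.ψ I.1 * (Ideal.absNorm I.1 : ℂ) ^ (-s₁)‖ :=
    (Pool.Agent.H81.RC.ep K χ).1 s₁ hs
  have hs' : 1 < ((starRingEnd ℂ) s₂).re := by rwa [Complex.conj_re]
  have h2 : Summable fun I : NI K =>
      ‖χ.ψ I.1 * (Ideal.absNorm I.1 : ℂ) ^ (-(starRingEnd ℂ) s₂)‖ :=
    (Pool.Agent.H81.RC.ep K χ).1 _ hs'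
  have e : ∀ J : NI K, (starRingEnd ℂ) (χ.ψ J.1 *
      (Ideal.absNorm J.1 : ℂ) ^ (-(starRingEnd ℂ) s₂)) =
      (starRingEnd ℂ) (χ.ψ J.1) * (Ideal.absNorm J.1 : ℂ) ^ (-s₂) := by
    intro J
    rw [map_mul, Pool.Agent.H33.CV.natcpow_conj]
  have h3 : Summable fun J : NI K =>
      ‖(starRingEnd ℂ) (χ.ψ J.1) * (Ideal.absNorm J.1 : ℂ) ^ (-s₂)‖ := by
    refine h2.congr fun J => ?_
    rw [← e J, RCLike.norm_conj]
  have h4 : (starRingEnd ℂ) (Lc χ ((starRingEnd ℂ) s₂)) =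
      ∑' J : NI K, (starRingEnd ℂ) (χ.ψ J.1) * (Ideal.absNorm J.1 : ℂ) ^ (-s₂) := by
    unfold Lc
    rw [Complex.conj_tsum]
    exact tsum_congr e
  rw [h4]
  exact tsum_mul_tsum_of_summable_norm h1 h3

theorem pw_id2 {a b A : ℝ} (ha : 0 < a) (hb : 0 < b) (hA : 0 < A) (s₁ s₂ w : ℂ) :
    (a : ℂ) ^ (-(s₁ + w)) * (b : ℂ) ^ (-(s₂ + w)) * (A : ℂ) ^ (w + w) =
      ((a : ℂ) ^ (-s₁) * (b : ℂ) ^ (-s₂)) * ((a * b / A ^ 2 : ℝ) : ℂ) ^ (-w) := by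
  have hab : 0 < a * b := mul_pos ha hb
  have hQ : 0 < A ^ 2 := by positivity
  have e1 : (a : ℂ) ^ (-(s₁ + w)) = (a : ℂ) ^ (-s₁) * (a : ℂ) ^ (-w) := by
    rw [← Complex.cpow_add _ _ (by exact_mod_cast ha.ne')]
    congr 1
    ring
  have e2 : (b : ℂ) ^ (-(s₂ + w)) = (b : ℂ) ^ (-s₂) * (b : ℂ) ^ (-w) := by
    rw [← Complex.cpow_add _ _ (by exact_mod_cast hb.ne')]
    congr 1
    ring
  have e3 : (a : ℂ) ^ (-w) * (b : ℂ) ^ (-w) = ((a * b : ℝ) : ℂ) ^ (-w) := by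
    rw [Complex.ofReal_mul, Complex.mul_cpow_ofReal_nonneg ha.le hb.le]
  have e4 : ((a * b : ℝ) : ℂ) ^ (-w) =
      ((a * b / A ^ 2 : ℝ) : ℂ) ^ (-w) * ((A ^ 2 : ℝ) : ℂ) ^ (-w) := by
    rw [← Complex.mul_cpow_ofReal_nonneg (by positivity) hQ.le, ← Complex.ofReal_mul,
      div_mul_cancel₀ _ hQ.ne']
  have e5 : ((A ^ 2 : ℝ) : ℂ) ^ (-w) = (A : ℂ) ^ (-w) * (A : ℂ) ^ (-w) := by
    rw [pow_two, Complex.ofReal_mul, Complex.mul_cpow_ofReal_nonneg hA.le hA.le]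
  have e6 : (A : ℂ) ^ (-w) * (A : ℂ) ^ (-w) * (A : ℂ) ^ (w + w) = 1 := by
    rw [← Complex.cpow_add _ _ (by exact_mod_cast hA.ne'),
      ← Complex.cpow_add _ _ (by exact_mod_cast hA.ne'),
      show -w + -w + (w + w) = 0 by ring, Complex.cpow_zero]
  calc (a : ℂ) ^ (-(s₁ + w)) * (b : ℂ) ^ (-(s₂ + w)) * (A : ℂ) ^ (w + w)
      = ((a : ℂ) ^ (-s₁) * (b : ℂ) ^ (-s₂)) * (((a : ℂ) ^ (-w) * (b : ℂ) ^ (-w)) *
        (A : ℂ) ^ (w + w)) := by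
        rw [e1, e2]
        ring
    _ = ((a : ℂ) ^ (-s₁) * (b : ℂ) ^ (-s₂)) * (((a * b / A ^ 2 : ℝ) : ℂ) ^ (-w) *
        ((A : ℂ) ^ (-w) * (A : ℂ) ^ (-w) * (A : ℂ) ^ (w + w))) := by
        rw [e3, e4, e5]
        ring
    _ = _ := by rw [e6, mul_one]

/-- the terms of the double series -/
noncomputable def TG (χ : RCC K) (A : ℝ) (s₁ s₂ : ℂ) (p : NI K × NI K) (t : ℝ) : ℂ :=
  χ.ψ p.1.1 * (starRingEnd ℂ) (χ.ψ p.2.1) *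
    (((nm p.1.1 : ℝ) : ℂ) ^ (-s₁) * ((nm p.2.1 : ℝ) : ℂ) ^ (-s₂)) *
      (Gq s₁ s₂ (2 + t * I) * (cexp (2 * (2 + t * I) ^ 2) / (2 + t * I)) *
        ((nm p.1.1 * nm p.2.1 / A ^ 2 : ℝ) : ℂ) ^ (-(2 + t * I)))

theorem TG_eq (χ : RCC K) {A : ℝ} (hA : 0 < A) (s₁ s₂ : ℂ) (p : NI K × NI K) (t : ℝ) :
    TG χ A s₁ s₂ p t = Gq s₁ s₂ (2 + t * I) * (cexp (2 * (2 + t * I) ^ 2) / (2 + t * I)) *
      (pq χ (s₁ + (2 + t * I)) (s₂ + (2 + t * I)) p *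
        (A : ℂ) ^ ((2 : ℂ) + t * I + (2 + t * I))) := by
  have h := pw_id2 (Pool.Agent.H33.CV.nm_pos' p.1) (Pool.Agent.H33.CV.nm_pos' p.2) hA s₁ s₂
    (2 + t * I)
  have e1 : ((nm p.1.1 : ℝ) : ℂ) = (Ideal.absNorm p.1.1 : ℂ) := by
    unfold nm
    exact Complex.ofReal_natCast _
  have e2 : ((nm p.2.1 : ℝ) : ℂ) = (Ideal.absNorm p.2.1 : ℂ) := by
    unfold nm
    exact Complex.ofReal_natCast _
  rw [e1, e2] at h
  unfold TG pq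
  rw [e1, e2]
  calc χ.ψ p.1.1 * (starRingEnd ℂ) (χ.ψ p.2.1) *
        ((Ideal.absNorm p.1.1 : ℂ) ^ (-s₁) * (Ideal.absNorm p.2.1 : ℂ) ^ (-s₂)) *
        (Gq s₁ s₂ (2 + t * I) * (cexp (2 * (2 + t * I) ^ 2) / (2 + t * I)) *
          ((nm p.1.1 * nm p.2.1 / A ^ 2 : ℝ) : ℂ) ^ (-(2 + t * I)))
      = Gq s₁ s₂ (2 + t * I) * (cexp (2 * (2 + t * I) ^ 2) / (2 + t * I)) *
        (χ.ψ p.1.1 * (starRingEnd ℂ) (χ.ψ p.2.1) *
          ((Ideal.absNorm p.1.1 : ℂ) ^ (-s₁) * (Ideal.absNorm p.2.1 : ℂ) ^ (-s₂) *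
          ((nm p.1.1 * nm p.2.1 / A ^ 2 : ℝ) : ℂ) ^ (-(2 + t * I)))) := by ring
    _ = _ := by
        rw [← h]
        ring

/-- the product on the line `re = 2` -/
theorem HG_line (χ : RCC K) {Λ Z : ℂ → ℂ} (hZ : IsEnt χ Z) {Q : ℝ} (hQ : 0 < Q)
    (h : ∀ s : ℂ, (∀ n : ℕ, s ≠ -(n : ℂ)) → Λ s = (Q : ℂ) ^ (s / 2) * Gammaℂ s ^ 1 * Z s)
    (s₁ s₂ : ℂ) (h1 : 0 < s₁.re) (h2 : 0 < s₂.re)
    (t : ℝ) : HG Λ s₁ s₂ (2 + t * I) * (cexp (2 * (2 + t * I) ^ 2) / (2 + t * I)) =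
      4 * ((Real.sqrt Q / (2 * Real.pi) : ℝ) : ℂ) ^ (s₁ + s₂) * (Gamma s₁ * Gamma s₂) *
        ∑' p, TG χ (Real.sqrt Q / (2 * Real.pi)) s₁ s₂ p t := by
  have hA : 0 < Real.sqrt Q / (2 * Real.pi) := div_pos (Real.sqrt_pos.2 hQ) (by positivity)
  obtain ⟨A, hAe⟩ : ∃ A : ℝ, A = Real.sqrt Q / (2 * Real.pi) := ⟨_, rfl⟩
  have hre : ((2 : ℂ) + t * I).re = 2 := by simp
  have hr1 : 1 < (s₁ + (2 + t * I)).re := by
    rw [Complex.add_re, hre]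
    linarith
  have hr2 : 1 < (s₂ + (2 + t * I)).re := by
    rw [Complex.add_re, hre]
    linarith
  have hr3 : 1 < ((starRingEnd ℂ) (s₂ + (2 + t * I))).re := by
    rw [Complex.conj_re]
    exact hr2
  rw [HG_eq hQ h _ _ _ (by linarith) (by linarith), ← hAe]
  rw [← hAe] at hA
  rw [hZ.2 _ hr1, hZ.2 _ hr3, Lc_prod2 χ hr1 hr2]
  have e1 : ∀ p, TG χ A s₁ s₂ p t = (Gq s₁ s₂ (2 + t * I) *
      (cexp (2 * (2 + t * I) ^ 2) / (2 + t * I)) *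
      (A : ℂ) ^ ((2 : ℂ) + t * I + (2 + t * I))) *
        pq χ (s₁ + (2 + t * I)) (s₂ + (2 + t * I)) p := by
    intro p
    rw [TG_eq χ hA]
    ring
  rw [tsum_congr e1, tsum_mul_left]
  have e2 : (A : ℂ) ^ (s₁ + (2 + t * I) + (s₂ + (2 + t * I))) =
      (A : ℂ) ^ (s₁ + s₂) * (A : ℂ) ^ ((2 : ℂ) + t * I + (2 + t * I)) := by
    rw [← Complex.cpow_add _ _ (by exact_mod_cast hA.ne')]
    congr 1
    ring
  have hG1 : Gamma s₁ ≠ 0 := Complex.Gamma_ne_zero_of_re_pos h1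
  have hG2 : Gamma s₂ ≠ 0 := Complex.Gamma_ne_zero_of_re_pos h2
  have e3 : Gamma (s₁ + (2 + t * I)) * Gamma (s₂ + (2 + t * I)) =
      (Gamma s₁ * Gamma s₂) * Gq s₁ s₂ (2 + t * I) := by
    unfold Gq
    rw [mul_div_cancel₀ _ (mul_ne_zero hG1 hG2)]
  rw [e2, e3]
  ring

theorem pw_real2 {a b A x y : ℝ} (ha : 0 < a) (hb : 0 < b) (hA : 0 < A) :
    a ^ (-x) * b ^ (-y) * (a * b / A ^ 2) ^ (-(2 : ℝ)) =
      (A ^ 2) ^ (2 : ℝ) * (a ^ (-(x + 2)) * b ^ (-(y + 2))) := by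
  have hab : 0 < a * b := mul_pos ha hb
  have hQ : 0 < A ^ 2 := by positivity
  rw [Real.div_rpow hab.le hQ.le, Real.mul_rpow ha.le hb.le, Real.rpow_neg hQ.le 2, div_inv_eq_mul,
    neg_add, neg_add, Real.rpow_add ha, Real.rpow_add hb]
  ring

/-- interchange -/
theorem TG_sum (hVG : T_VG) (χ : RCC K) {A : ℝ} (hA : 0 < A) (s₁ s₂ : ℂ) (h1 : 1 / 4 ≤ s₁.re)
    (h1' : s₁.re ≤ 3 / 4) (h2 : 1 / 4 ≤ s₂.re) (h2' : s₂.re ≤ 3 / 4) :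
    HasSum (fun p : NI K × NI K => ∫ t : ℝ, TG χ A s₁ s₂ p t)
      (∫ t : ℝ, ∑' p, TG χ A s₁ s₂ p t) := by
  obtain ⟨C, B, -, -, hv⟩ := hVG 2 (by norm_num)
  have hint := (hv s₁ s₂ h1 h1' h2 h2' 1 one_pos).1
  have e2 : ((2 : ℝ) : ℂ) = 2 := by norm_num
  simp only [e2, Complex.ofReal_one, Complex.one_cpow, mul_one] at hint
  obtain ⟨G, hG⟩ : ∃ G : ℝ → ℂ, G = fun t : ℝ =>
    Gq s₁ s₂ (2 + t * I) * (cexp (2 * (2 + t * I) ^ 2) / (2 + t * I)) := ⟨_, rfl⟩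
  rw [← hG] at hint
  have hT : ∀ (p : NI K × NI K) (t : ℝ), TG χ A s₁ s₂ p t =
      (χ.ψ p.1.1 * (starRingEnd ℂ) (χ.ψ p.2.1) *
      (((nm p.1.1 : ℝ) : ℂ) ^ (-s₁) * ((nm p.2.1 : ℝ) : ℂ) ^ (-s₂))) *
      (G t * ((nm p.1.1 * nm p.2.1 / A ^ 2 : ℝ) : ℂ) ^ (-((2 : ℂ) + t * I))) := by
    intro p t
    rw [hG]
    rfl
  have hQ : 0 < A ^ 2 := by positivity
  have hx : ∀ p : NI K × NI K, 0 < nm p.1.1 * nm p.2.1 / A ^ 2 := fun p =>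
    div_pos (mul_pos (Pool.Agent.H33.CV.nm_pos' p.1) (Pool.Agent.H33.CV.nm_pos' p.2)) hQ
  have hnx : ∀ (p : NI K × NI K) (t : ℝ),
      ‖((nm p.1.1 * nm p.2.1 / A ^ 2 : ℝ) : ℂ) ^ (-((2 : ℂ) + t * I))‖ =
        (nm p.1.1 * nm p.2.1 / A ^ 2) ^ (-(2 : ℝ)) := by
    intro p t
    rw [Complex.norm_cpow_eq_rpow_re_of_pos (hx p)]
    congr 1
    simp
  have hi : ∀ p : NI K × NI K, Integrable (fun t : ℝ =>
      G t * ((nm p.1.1 * nm p.2.1 / A ^ 2 : ℝ) : ℂ) ^ (-((2 : ℂ) + t * I))) := by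
    intro p
    refine hint.mul_bdd (c := (nm p.1.1 * nm p.2.1 / A ^ 2) ^ (-(2 : ℝ))) ?_
      (Eventually.of_forall fun t => (hnx p t).le)
    refine Continuous.aestronglyMeasurable ?_
    refine Continuous.const_cpow (by fun_prop) (Or.inl ?_)
    exact_mod_cast (hx p).ne'
  have hψ : ∀ I : NI K, ‖χ.ψ I.1‖ ≤ 1 := fun I => Pool.Agent.H28.RC.rcc_norm_le χ I.1
  have hsm1 : Summable fun I : NI K => nm I.1 ^ (-(s₁.re + 2)) :=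
    Pool.Agent.H33.CV.nm_summable (s := s₁.re + 2) (by linarith)
  have hsm2 : Summable fun I : NI K => nm I.1 ^ (-(s₂.re + 2)) :=
    Pool.Agent.H33.CV.nm_summable (s := s₂.re + 2) (by linarith)
  have hsm : Summable fun p : NI K × NI K =>
      nm p.1.1 ^ (-(s₁.re + 2)) * nm p.2.1 ^ (-(s₂.re + 2)) :=
    hsm1.mul_of_nonneg hsm2 (fun I => Real.rpow_nonneg (Pool.Agent.H33.CV.nm_pos' I).le _)
      (fun I => Real.rpow_nonneg (Pool.Agent.H33.CV.nm_pos' I).le _)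
  refine hasSum_integral_of_summable_integral_norm (fun p => ?_) ?_
  · have : TG χ A s₁ s₂ p = fun t => (χ.ψ p.1.1 * (starRingEnd ℂ) (χ.ψ p.2.1) *
      (((nm p.1.1 : ℝ) : ℂ) ^ (-s₁) * ((nm p.2.1 : ℝ) : ℂ) ^ (-s₂))) *
      (G t * ((nm p.1.1 * nm p.2.1 / A ^ 2 : ℝ) : ℂ) ^ (-((2 : ℂ) + t * I))) := funext (hT p)
    rw [this]
    exact (hi p).const_mul _
  · refine Summable.of_nonneg_of_le (fun p => integral_nonneg fun t => norm_nonneg _)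
      (fun p => ?_) (hsm.mul_left (((A ^ 2) ^ (2 : ℝ)) * ∫ t, ‖G t‖))
    have ha := Pool.Agent.H33.CV.nm_pos' p.1
    have hb := Pool.Agent.H33.CV.nm_pos' p.2
    have e3 : ∀ t, ‖TG χ A s₁ s₂ p t‖ ≤
        (A ^ 2) ^ (2 : ℝ) * (nm p.1.1 ^ (-(s₁.re + 2)) * nm p.2.1 ^ (-(s₂.re + 2))) * ‖G t‖ := by
      intro t
      rw [hT, norm_mul, norm_mul, norm_mul, norm_mul, norm_mul, hnx, RCLike.norm_conj,
        Complex.norm_cpow_eq_rpow_re_of_pos ha, Complex.norm_cpow_eq_rpow_re_of_pos hb,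
        Complex.neg_re, Complex.neg_re]
      have e4 := pw_real2 (x := s₁.re) (y := s₂.re) ha hb hA
      have e5 : ‖χ.ψ p.1.1‖ * ‖χ.ψ p.2.1‖ ≤ 1 :=
        mul_le_one₀ (hψ _) (norm_nonneg _) (hψ _)
      calc ‖χ.ψ p.1.1‖ * ‖χ.ψ p.2.1‖ * (nm p.1.1 ^ (-s₁.re) * nm p.2.1 ^ (-s₂.re)) *
            (‖G t‖ * (nm p.1.1 * nm p.2.1 / A ^ 2) ^ (-(2 : ℝ)))
          = ‖χ.ψ p.1.1‖ * ‖χ.ψ p.2.1‖ * ((nm p.1.1 ^ (-s₁.re) * nm p.2.1 ^ (-s₂.re) *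
            (nm p.1.1 * nm p.2.1 / A ^ 2) ^ (-(2 : ℝ))) * ‖G t‖) := by ring
        _ ≤ 1 * ((nm p.1.1 ^ (-s₁.re) * nm p.2.1 ^ (-s₂.re) *
            (nm p.1.1 * nm p.2.1 / A ^ 2) ^ (-(2 : ℝ))) * ‖G t‖) :=
            mul_le_mul_of_nonneg_right e5 (by have := hx p; positivity)
        _ = _ := by rw [one_mul, e4]
    calc ∫ t, ‖TG χ A s₁ s₂ p t‖ ≤ ∫ t, (A ^ 2) ^ (2 : ℝ) *
          (nm p.1.1 ^ (-(s₁.re + 2)) * nm p.2.1 ^ (-(s₂.re + 2))) * ‖G t‖ :=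
          integral_mono_of_nonneg (Eventually.of_forall fun t => norm_nonneg _)
            (hint.norm.const_mul _) (Eventually.of_forall e3)
      _ = _ := by
          rw [integral_const_mul]
          ring

/-- the sum of the integrals -/
theorem TG_A2 (hVG : T_VG) (χ : RCC K) {A : ℝ} (hA : 0 < A) (s₁ s₂ : ℂ) (h1 : 1 / 4 ≤ s₁.re)
    (h1' : s₁.re ≤ 3 / 4) (h2 : 1 / 4 ≤ s₂.re) (h2' : s₂.re ≤ 3 / 4) :
    ∫ t : ℝ, ∑' p, TG χ A s₁ s₂ p t = 2 * Real.pi * A2g (A ^ 2) s₁ s₂ χ.ψ := by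
  rw [← (TG_sum hVG χ hA s₁ s₂ h1 h1' h2 h2').tsum_eq]
  unfold A2g
  rw [← tsum_mul_left]
  refine tsum_congr fun p => ?_
  unfold Vg TG
  rw [integral_const_mul]
  have hπ : (Real.pi : ℂ) ≠ 0 := by exact_mod_cast Real.pi_ne_zero
  have hc : 2 * (Real.pi : ℂ) * ((1 / (2 * Real.pi) : ℝ) : ℂ) = 1 := by
    push_cast
    field_simp
  generalize (∫ a : ℝ, Gq s₁ s₂ (2 + a * I) *
    (cexp (2 * (2 + a * I) ^ 2) / (2 + a * I)) *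
      ((nm p.1.1 * nm p.2.1 / A ^ 2 : ℝ) : ℂ) ^ (-((2 : ℂ) + a * I))) = J
  linear_combination (-(χ.ψ p.1.1 * (starRingEnd ℂ) (χ.ψ p.2.1) *
    (((nm p.1.1 : ℝ) : ℂ) ^ (-s₁) * ((nm p.2.1 : ℝ) : ℂ) ^ (-s₂)) * J)) * hc

end

/-- target AF of the board -/
theorem pf_AF (h1 : T_VG) : T_AF := by
  intro K _ _ _ hr χ hf Z hZ s₁ s₂ ha ha' hb hb'
  obtain ⟨Z', Λ, ε, hZ', hΛ, hΛe, hε, hfe, hbd⟩ := a_EN K χ hf
  obtain rfl := Pool.Agent.H33.CV.ent_unique χ hZ hZ'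
  rw [hr] at hΛe
  have hQ : 0 < cnd K χ.f := Pool.Agent.H33.CV.cnd_pos' χ.f χ.f_ne
  have hA : 0 < Real.sqrt (cnd K χ.f) / (2 * Real.pi) :=
    div_pos (Real.sqrt_pos.2 hQ) (by positivity)
  have hAe : cA K χ.f = Real.sqrt (cnd K χ.f) / (2 * Real.pi) := rfl
  obtain ⟨C, hC⟩ := hbd 3
  have hH := HG_diff hΛ s₁ s₂
  have hbH : ∀ s : ℂ, |s.re| ≤ 2 → ‖HG Λ s₁ s₂ s‖ ≤ C * C := by
    intro s hs
    rw [abs_le] at hs
    have h2 : |(s₁ + s).re| ≤ 3 := by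
      rw [Complex.add_re, abs_le]
      constructor <;> linarith [hs.1, hs.2]
    have h3 : |((starRingEnd ℂ) (s₂ + s)).re| ≤ 3 := by
      rw [Complex.conj_re, Complex.add_re, abs_le]
      constructor <;> linarith [hs.1, hs.2]
    unfold HG
    rw [norm_mul, RCLike.norm_conj]
    have h4 := hC _ h2
    exact mul_le_mul h4 (hC _ h3) (norm_nonneg _) ((norm_nonneg _).trans h4)
  have hCC : 0 ≤ C * C := mul_self_nonneg C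
  have key := Pool.Agent.H28.PZ.All.sh (fun w => HG Λ s₁ s₂ w * cexp (2 * w ^ 2)) (-2) 2
    (C * C * Real.exp 9) 0 (by norm_num) (by norm_num)
    (fun s _ _ => (hH s).mul (by fun_prop)) (fun s hs1 hs2 => by
      have hb1 := hbH s (abs_le.2 ⟨hs1, hs2⟩)
      rw [norm_mul, Complex.norm_exp, mul_assoc, ← Real.exp_add]
      refine mul_le_mul hb1 (Real.exp_le_exp.2 ?_) (Real.exp_nonneg _) hCC
      have e : (2 * s ^ 2).re = 2 * (s.re ^ 2 - s.im ^ 2) := by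
        rw [pow_two]
        simp only [Complex.mul_re, Complex.re_ofNat, Complex.im_ofNat, Complex.mul_im]
        ring
      rw [e]
      have h3 : s.re ^ 2 ≤ 4 := by nlinarith
      have h4 : |s.im| ^ 2 = s.im ^ 2 := sq_abs _
      nlinarith [sq_nonneg (|s.im| - 1 / 2)])
  simp only [sub_zero, zero_pow two_ne_zero, mul_zero, Complex.exp_zero, mul_one] at key
  have e2 : ((2 : ℝ) : ℂ) = 2 := by norm_num
  have e2' : ((-2 : ℝ) : ℂ) = -2 := by norm_num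
  rw [e2, e2'] at key
  have hpos : (∫ t : ℝ, HG Λ s₁ s₂ (2 + t * I) * cexp (2 * (2 + t * I) ^ 2) / (2 + t * I)) =
      4 * (cA K χ.f : ℂ) ^ (s₁ + s₂) * (Gamma s₁ * Gamma s₂) *
        (2 * Real.pi * A2g (cA K χ.f ^ 2) s₁ s₂ χ.ψ) := by
    rw [hAe, ← TG_A2 h1 χ hA s₁ s₂ ha ha' hb hb', ← integral_const_mul]
    refine integral_congr_ae (Eventually.of_forall fun t => ?_)
    beta_reduce
    rw [← HG_line χ hZ hQ hΛe s₁ s₂ (by linarith) (by linarith) t, mul_div_assoc]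
  have hr1 : 1 / 4 ≤ (1 - s₁).re ∧ (1 - s₁).re ≤ 3 / 4 := by
    rw [Complex.sub_re, Complex.one_re]
    constructor <;> linarith
  have hr2 : 1 / 4 ≤ (1 - s₂).re ∧ (1 - s₂).re ≤ 3 / 4 := by
    rw [Complex.sub_re, Complex.one_re]
    constructor <;> linarith
  have hneg : (∫ t : ℝ, HG Λ s₁ s₂ (-2 + t * I) * cexp (2 * (-2 + t * I) ^ 2) / (-2 + t * I)) =
      -(4 * (cA K χ.f : ℂ) ^ (1 - s₂ + (1 - s₁)) * (Gamma (1 - s₂) * Gamma (1 - s₁)) *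
        (2 * Real.pi * A2g (cA K χ.f ^ 2) (1 - s₂) (1 - s₁) χ.ψ)) := by
    rw [hAe, ← TG_A2 h1 χ hA (1 - s₂) (1 - s₁) hr2.1 hr2.2 hr1.1 hr1.2, ← integral_const_mul,
      ← integral_neg, ← integral_neg_eq_self (fun t : ℝ => HG Λ s₁ s₂ (-2 + t * I) *
        cexp (2 * (-2 + t * I) ^ 2) / (-2 + t * I)) volume]
    refine integral_congr_ae (Eventually.of_forall fun t => ?_)
    beta_reduce
    rw [← HG_line χ hZ hQ hΛe (1 - s₂) (1 - s₁) (by linarith [hr2.1]) (by linarith [hr1.1]) t]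
    have e3 : (-2 : ℂ) + ((-t : ℝ) : ℂ) * I = -(2 + t * I) := by
      push_cast
      ring
    rw [e3, HG_neg hε hfe, neg_sq, div_neg, mul_div_assoc]
  rw [hpos, hneg] at key
  have h0 := HG_eq hQ hΛe s₁ s₂ 0 (by rw [add_zero]; linarith) (by rw [add_zero]; linarith)
  simp only [add_zero] at h0
  rw [h0, ← hAe] at key
  have hπ : (Real.pi : ℂ) ≠ 0 := by exact_mod_cast Real.pi_ne_zero
  have hAc : (cA K χ.f : ℂ) ≠ 0 := by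
    rw [hAe]
    exact_mod_cast hA.ne'
  have hG1 : Gamma s₁ ≠ 0 := Complex.Gamma_ne_zero_of_re_pos (by linarith)
  have hG2 : Gamma s₂ ≠ 0 := Complex.Gamma_ne_zero_of_re_pos (by linarith)
  have hAp : (cA K χ.f : ℂ) ^ (s₁ + s₂) ≠ 0 := by
    rw [Ne, Complex.cpow_eq_zero_iff]
    rintro ⟨h, -⟩
    exact hAc h
  have e5 : (cA K χ.f : ℂ) ^ (1 - s₂ + (1 - s₁)) =
      (cA K χ.f : ℂ) ^ (s₁ + s₂) * (cA K χ.f : ℂ) ^ (2 - 2 * (s₁ + s₂)) := by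
    rw [← Complex.cpow_add _ _ hAc]
    congr 1
    ring
  rw [e5] at key
  have hc : ((1 / (2 * Real.pi) : ℝ) : ℂ) * (2 * Real.pi) = 1 := by
    push_cast
    field_simp
  have hne : 4 * (cA K χ.f : ℂ) ^ (s₁ + s₂) * (Gamma s₁ * Gamma s₂) ≠ 0 :=
    mul_ne_zero (mul_ne_zero (by norm_num) hAp) (mul_ne_zero hG1 hG2)
  refine mul_left_cancel₀ hne ?_
  rw [← key]
  unfold Xf
  have hx : 4 * (cA K χ.f : ℂ) ^ (s₁ + s₂) * (Gamma s₁ * Gamma s₂) *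
      ((cA K χ.f : ℂ) ^ (2 - 2 * (s₁ + s₂)) * (Gamma (1 - s₁) * Gamma (1 - s₂) /
        (Gamma s₁ * Gamma s₂)) * A2g (cA K χ.f ^ 2) (1 - s₂) (1 - s₁) χ.ψ) =
      4 * ((cA K χ.f : ℂ) ^ (s₁ + s₂) * (cA K χ.f : ℂ) ^ (2 - 2 * (s₁ + s₂))) *
        (Gamma (1 - s₂) * Gamma (1 - s₁)) *
          A2g (cA K χ.f ^ 2) (1 - s₂) (1 - s₁) χ.ψ := by
    field_simp
  rw [mul_add (4 * (cA K χ.f : ℂ) ^ (s₁ + s₂) * (Gamma s₁ * Gamma s₂)), hx]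
  linear_combination (4 * (cA K χ.f : ℂ) ^ (s₁ + s₂) * (Gamma s₁ * Gamma s₂) *
    A2g (cA K χ.f ^ 2) s₁ s₂ χ.ψ + 4 * ((cA K χ.f : ℂ) ^ (s₁ + s₂) *
      (cA K χ.f : ℂ) ^ (2 - 2 * (s₁ + s₂))) * (Gamma (1 - s₂) * Gamma (1 - s₁)) *
        A2g (cA K χ.f ^ 2) (1 - s₂) (1 - s₁) χ.ψ) * hc

end Pool.Agent.H47.CRZ
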